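import Pool.Agent.H5.MinIdem2

set_option autoImplicit false

namespace Pool.Agent.Results.MP_d04c84_co.Cex

open Pool.Agent.H5.MinIdem

theorem result : ∃ p : Ultrafilter ℕ+, MinIdem odot p ∧ (∀ A ∈ p, AddCentral A) ∧
    ∃ A ∈ p, (¬ ∃ m n : ℕ+, m ∈ A ∧ n ∈ A ∧ m + n ∈ A ∧ m * 2 ^ (n : ℕ) ∈ A) ∧
      ∀ m n : ℕ+, ¬ (m ∈ A ∧ m + n ∈ A ∧ m * 2 ^ (n : ℕ) ∈ A) := by
  obtain ⟨p, h1, h2, A, hA, h3⟩ := Pool.Agent.H5.MinIdem.main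
  exact ⟨p, h1, h2, A, hA, fun ⟨m, n, a, _, b, c⟩ => h3 m n ⟨a, b, c⟩, h3⟩

end Pool.Agent.Results.MP_d04c84_co.Cex
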